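import Mathlib

/-!
# From powers of two to logarithms
-/

namespace Pool.Agent.W107

/-- General passage from the finite form to the asymptotic form. -/
theorem asym_of (α β : ℕ) (hα : 1 ≤ α) : ∃ c : ℝ, 0 < c ∧ ∀ (m T : ℕ) (R : ℝ), 1 ≤ R →
    R ≤ c * m → (∀ K : ℕ, 1 ≤ K → R * 2 ^ (α * K + β) ≤ m → K * m < 8 * T) →
    c * m * Real.log (m / R) ≤ T := by
  have hα' : (1 : ℝ) ≤ α := by exact_mod_cast hα
  set Z0 : ℝ := 2 * β + 2 * α with hZ0
  refine ⟨min (1 / (16 * α)) (Real.exp (-Z0)), lt_min (by positivity) (Real.exp_pos _), ?_⟩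
  set c : ℝ := min (1 / (16 * α)) (Real.exp (-Z0)) with hc
  have hcpos : 0 < c := lt_min (by positivity) (Real.exp_pos _)
  intro m T R hR hRc h
  have hRpos : 0 < R := by linarith
  set y : ℝ := (m : ℝ) / R with hy
  have hyc : Real.exp Z0 ≤ y := by
    rw [hy, le_div_iff₀ hRpos]
    have h1 : Real.exp Z0 * R ≤ Real.exp Z0 * (Real.exp (-Z0) * m) := by
      apply mul_le_mul_of_nonneg_left _ (Real.exp_pos _).le
      refine hRc.trans ?_
      exact mul_le_mul_of_nonneg_right (min_le_right _ _) (Nat.cast_nonneg m)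
    calc Real.exp Z0 * R ≤ Real.exp Z0 * (Real.exp (-Z0) * m) := h1
      _ = (Real.exp Z0 * Real.exp (-Z0)) * m := by ring
      _ = m := by rw [← Real.exp_add]; simp
  have hypos : 0 < y := lt_of_lt_of_le (Real.exp_pos _) hyc
  set z : ℝ := Real.log y with hz
  have hzZ : Z0 ≤ z := by
    rw [hz, ← Real.log_exp Z0]
    exact Real.log_le_log (Real.exp_pos _) hyc
  have hyz : y = Real.exp z := by rw [hz, Real.exp_log hypos]
  have hm0 : (0 : ℝ) ≤ m := Nat.cast_nonneg m
  have hβ0 : (0 : ℝ) ≤ β := Nat.cast_nonneg β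
  -- the parameter K
  set K := ⌊(z - β) / α⌋₊ with hK
  have hnn : 0 ≤ (z - β) / α := by
    apply div_nonneg _ (by linarith)
    rw [hZ0] at hzZ
    linarith
  have hKle : (K : ℝ) ≤ (z - β) / α := Nat.floor_le hnn
  have hKge : (z - β) / α - 1 ≤ K := by
    have := Nat.lt_floor_add_one ((z - β) / α)
    linarith
  have hK2 : z / (2 * α) ≤ K := by
    refine le_trans ?_ hKge
    rw [div_le_iff₀ (by positivity)]
    have h1 : ((z - β) / α - 1) * (2 * α) = 2 * (z - β) - 2 * α := by field_simp
    rw [h1]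
    rw [hZ0] at hzZ
    linarith
  have hK1 : 1 ≤ K := by
    have h1 : (1 : ℝ) ≤ z / (2 * α) := by
      rw [le_div_iff₀ (by positivity)]
      rw [hZ0] at hzZ
      linarith
    have : (1 : ℝ) ≤ K := h1.trans hK2
    exact_mod_cast this
  have hm : R * 2 ^ (α * K + β) ≤ m := by
    have h1 : (2 : ℝ) ^ (α * K + β) ≤ y := by
      calc (2 : ℝ) ^ (α * K + β) ≤ Real.exp 1 ^ (α * K + β) := by
            apply pow_le_pow_left₀ (by norm_num)
            have := Real.exp_one_gt_d9
            linarith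
        _ = Real.exp ((α * K + β : ℕ) : ℝ) := by rw [← Real.exp_nat_mul]; simp
        _ ≤ Real.exp z := by
            apply Real.exp_le_exp.2
            push_cast
            have h2 : (K : ℝ) * α ≤ (z - β) / α * α :=
              mul_le_mul_of_nonneg_right hKle (by linarith)
            have h3 : (z - β) / α * α = z - β := by field_simp
            linarith
        _ = y := hyz.symm
    calc R * 2 ^ (α * K + β) ≤ R * y := mul_le_mul_of_nonneg_left h1 hRpos.le
      _ = m := by rw [hy]; field_simp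
  have h1 := h K hK1 hm
  have h2 : (K : ℝ) * m ≤ 8 * T := by exact_mod_cast h1.le
  have hz0 : 0 ≤ z := by
    refine le_trans ?_ hzZ
    rw [hZ0]; positivity
  calc c * m * z ≤ (1 / (16 * α)) * m * z := by
        apply mul_le_mul_of_nonneg_right _ hz0
        exact mul_le_mul_of_nonneg_right (min_le_left _ _) hm0
    _ = (z / (2 * α) * m) / 8 := by field_simp; ring
    _ ≤ (K * m) / 8 := by
        apply div_le_div_of_nonneg_right _ (by norm_num)
        exact mul_le_mul_of_nonneg_right hK2 hm0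
    _ ≤ T := by linarith

end Pool.Agent.W107
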