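import Pool.Agent.W668.Uni.Stmts

/-!
# UNI-A1: the Abel inverse operator is bounded bilinear
-/

set_option autoImplicit false

open Set MeasureTheory
open scoped ContDiff Topology

namespace Pool.Agent.W107.UniA1

open Pool.Agent.W668.Uni

noncomputable section

/-- the integrand of the kernel -/
def mm (k : Fin 4 → Y) (z t ψ : ℝ) : ℝ := Real.sin ψ ^ 2 *
    (3 * evY (k 1) (z * sig t ψ) (bet t ψ)
      + Real.sin ψ ^ 2 / sig t ψ ^ 2 * evY (k 2) (z * sig t ψ) (bet t ψ)
      + Real.sin ψ / (sig t ψ * Real.sqrt (1 - t ^ 2)) *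
          evY (k 3) (z * sig t ψ) (bet t ψ))

theorem Mker_eq (k : Fin 4 → Y) (z t : ℝ) :
    Mker k z t = ∫ ψ in (0 : ℝ)..(Real.pi / 2), mm k z t ψ := rfl

theorem abs_evY_le (h : Y) (y t : ℝ) : |evY h y t| ≤ ‖h‖ :=
  ContinuousMap.norm_coe_le_norm h _

theorem abs_evX_le (f : X) (x : ℝ) : |evX f x| ≤ ‖f‖ :=
  ContinuousMap.norm_coe_le_norm f _

/-- the integrable majorant -/
def BB (t : ℝ) : ℝ := 1 + (1 - t) ^ (-(1 / 2) : ℝ)

theorem BB_int : IntervalIntegrable BB volume 0 1 := by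
  have h1 : IntervalIntegrable (fun x : ℝ => x ^ (-(1 / 2) : ℝ)) volume 0 1 :=
    intervalIntegral.intervalIntegrable_rpow' (by norm_num)
  have h2 := h1.comp_sub_left 1
  simp only [sub_zero, sub_self] at h2
  exact (intervalIntegrable_const (c := (1 : ℝ))).add h2.symm

theorem BB_nonneg {t : ℝ} (ht : t ≤ 1) : 0 ≤ BB t := by
  have : 0 ≤ (1 - t) ^ (-(1 / 2) : ℝ) := Real.rpow_nonneg (by linarith) _
  unfold BB
  linarith

theorem sin_le_sig (t ψ : ℝ) : |Real.sin ψ| ≤ sig t ψ := by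
  unfold sig
  rw [← Real.sqrt_sq_eq_abs]
  exact Real.sqrt_le_sqrt (by nlinarith [sq_nonneg (t * Real.cos ψ)])

theorem mm_bound (k : Fin 4 → Y) (z t ψ : ℝ) (h0 : 0 ≤ t) (h1 : t ≤ 1) :
    |mm k z t ψ| ≤ 5 * ‖k‖ * BB t := by
  have k1 : |evY (k 1) (z * sig t ψ) (bet t ψ)| ≤ ‖k‖ :=
    (abs_evY_le _ _ _).trans (norm_le_pi_norm k 1)
  have k2 : |evY (k 2) (z * sig t ψ) (bet t ψ)| ≤ ‖k‖ :=
    (abs_evY_le _ _ _).trans (norm_le_pi_norm k 2)
  have k3 : |evY (k 3) (z * sig t ψ) (bet t ψ)| ≤ ‖k‖ :=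
    (abs_evY_le _ _ _).trans (norm_le_pi_norm k 3)
  have hk : 0 ≤ ‖k‖ := norm_nonneg k
  have hs : |Real.sin ψ| ≤ sig t ψ := sin_le_sig t ψ
  have hs0 : 0 ≤ sig t ψ := Real.sqrt_nonneg _
  have hsin2 : |Real.sin ψ ^ 2| ≤ 1 := by
    rw [abs_of_nonneg (sq_nonneg _)]
    exact Real.sin_sq_le_one ψ
  have hr : |Real.sin ψ / sig t ψ| ≤ 1 := by
    rw [abs_div, abs_of_nonneg hs0]
    exact div_le_one_of_le₀ hs hs0
  have hr2 : |Real.sin ψ ^ 2 / sig t ψ ^ 2| ≤ 1 := by
    rw [← div_pow, abs_pow]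
    exact pow_le_one₀ (abs_nonneg _) hr
  have hB1 : 0 ≤ (1 - t) ^ (-(1 / 2) : ℝ) := Real.rpow_nonneg (by linarith) _
  have hr3 : |Real.sin ψ / (sig t ψ * Real.sqrt (1 - t ^ 2))| ≤ (1 - t) ^ (-(1 / 2) : ℝ) := by
    rw [div_mul_eq_div_div, abs_div, abs_of_nonneg (Real.sqrt_nonneg _)]
    rcases eq_or_lt_of_le h1 with h | h
    · subst h
      simp
    · have hp : 0 < 1 - t := by linarith
      rw [Real.rpow_neg hp.le, ← Real.sqrt_eq_rpow, ← one_div]
      have hq : 0 < Real.sqrt (1 - t) := Real.sqrt_pos.2 hp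
      have hqq : Real.sqrt (1 - t) ≤ Real.sqrt (1 - t ^ 2) :=
        Real.sqrt_le_sqrt (by nlinarith)
      calc |Real.sin ψ / sig t ψ| / Real.sqrt (1 - t ^ 2)
          ≤ 1 / Real.sqrt (1 - t ^ 2) := by
            exact div_le_div_of_nonneg_right hr (Real.sqrt_nonneg _)
        _ ≤ 1 / Real.sqrt (1 - t) := one_div_le_one_div_of_le hq hqq
  unfold mm
  rw [abs_mul]
  have e1 : |3 * evY (k 1) (z * sig t ψ) (bet t ψ)| ≤ 3 * ‖k‖ := by
    rw [abs_mul, abs_of_pos (by norm_num : (0 : ℝ) < 3)]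
    linarith
  have e2 : |Real.sin ψ ^ 2 / sig t ψ ^ 2 * evY (k 2) (z * sig t ψ) (bet t ψ)| ≤ 1 * ‖k‖ := by
    rw [abs_mul]
    exact mul_le_mul hr2 k2 (abs_nonneg _) zero_le_one
  have e3 : |Real.sin ψ / (sig t ψ * Real.sqrt (1 - t ^ 2)) *
      evY (k 3) (z * sig t ψ) (bet t ψ)| ≤ (1 - t) ^ (-(1 / 2) : ℝ) * ‖k‖ := by
    rw [abs_mul]
    exact mul_le_mul hr3 k3 (abs_nonneg _) hB1
  have e4 := abs_add_three (3 * evY (k 1) (z * sig t ψ) (bet t ψ))
    (Real.sin ψ ^ 2 / sig t ψ ^ 2 * evY (k 2) (z * sig t ψ) (bet t ψ))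
    (Real.sin ψ / (sig t ψ * Real.sqrt (1 - t ^ 2)) *
      evY (k 3) (z * sig t ψ) (bet t ψ))
  have e5 : 3 * ‖k‖ + 1 * ‖k‖ + (1 - t) ^ (-(1 / 2) : ℝ) * ‖k‖ ≤ 5 * ‖k‖ * BB t := by
    unfold BB
    nlinarith [mul_nonneg hB1 hk]
  refine (mul_le_of_le_one_left (abs_nonneg _) hsin2).trans ?_
  linarith

theorem measurable_evY (h : Y) : Measurable (fun p : ℝ × ℝ => evY h p.1 p.2) :=
  (continuous_evY h).measurable

theorem measurable_mm (k : Fin 4 → Y) (z : ℝ) :
    Measurable (fun p : ℝ × ℝ => mm k z p.1 p.2) := by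
  have hsig : Measurable (fun p : ℝ × ℝ => sig p.1 p.2) := by
    unfold sig
    fun_prop
  have hbet : Measurable (fun p : ℝ × ℝ => bet p.1 p.2) := by
    unfold bet
    exact Real.continuous_arccos.measurable.comp (measurable_fst.div hsig)
  have hk : ∀ i : Fin 4, Measurable (fun p : ℝ × ℝ =>
      evY (k i) (z * sig p.1 p.2) (bet p.1 p.2)) := fun i =>
    (measurable_evY (k i)).comp ((hsig.const_mul z).prodMk hbet)
  have h1 := hk 1
  have h2 := hk 2
  have h3 := hk 3
  unfold mm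
  fun_prop

theorem continuous_mm (k : Fin 4 → Y) (t ψ : ℝ) : Continuous (fun z : ℝ => mm k z t ψ) := by
  have hk : ∀ i : Fin 4, Continuous (fun z : ℝ =>
      evY (k i) (z * sig t ψ) (bet t ψ)) := fun i =>
    (continuous_evY (k i)).comp ((continuous_id.mul continuous_const).prodMk continuous_const)
  have h1 := hk 1
  have h2 := hk 2
  have h3 := hk 3
  unfold mm
  fun_prop

theorem mm_int (k : Fin 4 → Y) (z t : ℝ) (h0 : 0 ≤ t) (h1 : t ≤ 1) :
    IntervalIntegrable (fun ψ => mm k z t ψ) volume 0 (Real.pi / 2) := by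
  refine (intervalIntegrable_const (c := 5 * ‖k‖ * BB t)).mono_fun ?_ ?_
  · exact ((measurable_mm k z).comp (measurable_const.prodMk measurable_id)).aestronglyMeasurable
  · refine Filter.Eventually.of_forall fun ψ => ?_
    exact (mm_bound k z t ψ h0 h1).trans (le_abs_self _)

theorem Mker_bound (k : Fin 4 → Y) (z t : ℝ) (h0 : 0 ≤ t) (h1 : t ≤ 1) :
    |Mker k z t| ≤ 5 * ‖k‖ * BB t * (Real.pi / 2) := by
  rw [Mker_eq, ← Real.norm_eq_abs]
  have := intervalIntegral.norm_integral_le_of_norm_le_const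
    (a := (0 : ℝ)) (b := Real.pi / 2) (f := fun ψ => mm k z t ψ) (C := 5 * ‖k‖ * BB t)
    (fun ψ _ => by
      rw [Real.norm_eq_abs]
      exact mm_bound k z t ψ h0 h1)
  rwa [sub_zero, abs_of_nonneg (by positivity : (0 : ℝ) ≤ Real.pi / 2)] at this

theorem measurable_Mker (k : Fin 4 → Y) (z : ℝ) : Measurable (fun t => Mker k z t) := by
  have h : StronglyMeasurable (fun t : ℝ => ∫ ψ, mm k z t ψ
      ∂(volume.restrict (Ioc (0 : ℝ) (Real.pi / 2)))) :=
    (measurable_mm k z).stronglyMeasurable.integral_prod_right'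
  have e : (fun t => Mker k z t) = (fun t : ℝ => ∫ ψ, mm k z t ψ
      ∂(volume.restrict (Ioc (0 : ℝ) (Real.pi / 2)))) := by
    funext t
    rw [Mker_eq, intervalIntegral.integral_of_le (by positivity)]
  rw [e]
  exact h.measurable

theorem continuous_Mker (k : Fin 4 → Y) (t : ℝ) (h0 : 0 ≤ t) (h1 : t ≤ 1) :
    Continuous (fun z => Mker k z t) := by
  simp only [Mker_eq]
  refine intervalIntegral.continuous_of_dominated_interval (bound := fun _ => 5 * ‖k‖ * BB t)
    ?_ ?_ ?_ ?_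
  · intro z
    exact ((measurable_mm k z).comp
      (measurable_const.prodMk measurable_id)).aestronglyMeasurable
  · intro z
    refine Filter.Eventually.of_forall fun ψ _ => ?_
    rw [Real.norm_eq_abs]
    exact mm_bound k z t ψ h0 h1
  · exact intervalIntegrable_const
  · exact Filter.Eventually.of_forall fun ψ _ => continuous_mm k t ψ

/-- the integrand of the outer integral is dominated -/
theorem out_bound (k : Fin 4 → Y) (g : X) (z t : ℝ) (h0 : 0 ≤ t) (h1 : t ≤ 1) :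
    |evX g (z * t) * Mker k z t| ≤ ‖g‖ * (5 * ‖k‖ * (Real.pi / 2)) * BB t := by
  rw [abs_mul]
  have := mul_le_mul (abs_evX_le g (z * t)) (Mker_bound k z t h0 h1) (abs_nonneg _)
    (norm_nonneg g)
  linarith

theorem out_meas (k : Fin 4 → Y) (g : X) (z : ℝ) :
    Measurable (fun t => evX g (z * t) * Mker k z t) :=
  (((continuous_evX g).comp (continuous_const.mul continuous_id)).measurable).mul
    (measurable_Mker k z)

theorem out_int (k : Fin 4 → Y) (g : X) (z : ℝ) :
    IntervalIntegrable (fun t => evX g (z * t) * Mker k z t) volume 0 1 := by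
  refine (BB_int.const_mul (‖g‖ * (5 * ‖k‖ * (Real.pi / 2)))).mono_fun
    (out_meas k g z).aestronglyMeasurable ?_
  rw [Filter.EventuallyLE, ae_restrict_iff' measurableSet_uIoc]
  refine Filter.Eventually.of_forall fun t ht => ?_
  rw [uIoc_of_le zero_le_one] at ht
  rw [Real.norm_eq_abs, Real.norm_eq_abs]
  exact (out_bound k g z t ht.1.le ht.2).trans (le_abs_self _)

theorem out_cont (k : Fin 4 → Y) (g : X) :
    Continuous (fun z => ∫ t in (0 : ℝ)..1, evX g (z * t) * Mker k z t) := by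
  refine intervalIntegral.continuous_of_dominated_interval
    (bound := fun t => ‖g‖ * (5 * ‖k‖ * (Real.pi / 2)) * BB t) ?_ ?_ ?_ ?_
  · intro z
    exact (out_meas k g z).aestronglyMeasurable
  · intro z
    refine Filter.Eventually.of_forall fun t ht => ?_
    rw [uIoc_of_le zero_le_one] at ht
    rw [Real.norm_eq_abs]
    exact out_bound k g z t ht.1.le ht.2
  · exact BB_int.const_mul _
  · refine Filter.Eventually.of_forall fun t ht => ?_
    rw [uIoc_of_le zero_le_one] at ht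
    exact ((continuous_evX g).comp (continuous_id.mul continuous_const)).mul
      (continuous_Mker k t ht.1.le ht.2)

/-- the value of the operator -/
def val (k : Fin 4 → Y) (g : X) (z : ℝ) : ℝ := 1 / 4 * evY (k 0) z 0 * evX g z
    + 1 / (2 * Real.pi) * ∫ t in (0 : ℝ)..1, evX g (z * t) * Mker k z t

theorem val_cont (k : Fin 4 → Y) (g : X) : Continuous (val k g) := by
  have h1 : Continuous (fun z : ℝ => evY (k 0) z 0) :=
    (continuous_evY (k 0)).comp (continuous_id.prodMk continuous_const)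
  have h2 := continuous_evX g
  have h3 := out_cont k g
  unfold val
  fun_prop

theorem mm_add (k k' : Fin 4 → Y) (z t ψ : ℝ) :
    mm (k + k') z t ψ = mm k z t ψ + mm k' z t ψ := by
  have e : ∀ (i : Fin 4) (a b : ℝ), evY ((k + k') i) a b = evY (k i) a b + evY (k' i) a b :=
    fun _ _ _ => rfl
  unfold mm
  simp only [e]
  ring

theorem mm_smul (r : ℝ) (k : Fin 4 → Y) (z t ψ : ℝ) :
    mm (r • k) z t ψ = r * mm k z t ψ := by
  have e : ∀ (i : Fin 4) (a b : ℝ), evY ((r • k) i) a b = r * evY (k i) a b :=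
    fun _ _ _ => rfl
  unfold mm
  simp only [e]
  ring

theorem Mker_add (k k' : Fin 4 → Y) (z t : ℝ) (h0 : 0 ≤ t) (h1 : t ≤ 1) :
    Mker (k + k') z t = Mker k z t + Mker k' z t := by
  simp only [Mker_eq, mm_add]
  exact intervalIntegral.integral_add (mm_int k z t h0 h1) (mm_int k' z t h0 h1)

theorem Mker_smul (r : ℝ) (k : Fin 4 → Y) (z t : ℝ) :
    Mker (r • k) z t = r * Mker k z t := by
  simp only [Mker_eq, mm_smul]
  exact intervalIntegral.integral_const_mul _ _

theorem val_add_left (k k' : Fin 4 → Y) (g : X) (z : ℝ) :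
    val (k + k') g z = val k g z + val k' g z := by
  have e : evY ((k + k') 0) z 0 = evY (k 0) z 0 + evY (k' 0) z 0 := rfl
  have e2 : (∫ t in (0 : ℝ)..1, evX g (z * t) * Mker (k + k') z t)
      = (∫ t in (0 : ℝ)..1, evX g (z * t) * Mker k z t)
        + ∫ t in (0 : ℝ)..1, evX g (z * t) * Mker k' z t := by
    rw [← intervalIntegral.integral_add (out_int k g z) (out_int k' g z)]
    refine intervalIntegral.integral_congr fun t ht => ?_
    rw [uIcc_of_le zero_le_one] at ht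
    simp only [Mker_add k k' z t ht.1 ht.2]
    ring
  unfold val
  rw [e, e2]
  ring

theorem val_smul_left (r : ℝ) (k : Fin 4 → Y) (g : X) (z : ℝ) :
    val (r • k) g z = r * val k g z := by
  have e : evY ((r • k) 0) z 0 = r * evY (k 0) z 0 := rfl
  have e2 : (∫ t in (0 : ℝ)..1, evX g (z * t) * Mker (r • k) z t)
      = r * ∫ t in (0 : ℝ)..1, evX g (z * t) * Mker k z t := by
    rw [← intervalIntegral.integral_const_mul]
    refine intervalIntegral.integral_congr fun t _ => ?_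
    simp only [Mker_smul]
    ring
  unfold val
  rw [e, e2]
  ring

theorem val_add_right (k : Fin 4 → Y) (g g' : X) (z : ℝ) :
    val k (g + g') z = val k g z + val k g' z := by
  have e : ∀ x, evX (g + g') x = evX g x + evX g' x := fun _ => rfl
  have e2 : (∫ t in (0 : ℝ)..1, evX (g + g') (z * t) * Mker k z t)
      = (∫ t in (0 : ℝ)..1, evX g (z * t) * Mker k z t)
        + ∫ t in (0 : ℝ)..1, evX g' (z * t) * Mker k z t := by
    rw [← intervalIntegral.integral_add (out_int k g z) (out_int k g' z)]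
    refine intervalIntegral.integral_congr fun t _ => ?_
    simp only [e]
    ring
  unfold val
  rw [e, e2]
  ring

theorem val_smul_right (r : ℝ) (k : Fin 4 → Y) (g : X) (z : ℝ) :
    val k (r • g) z = r * val k g z := by
  have e : ∀ x, evX (r • g) x = r * evX g x := fun _ => rfl
  have e2 : (∫ t in (0 : ℝ)..1, evX (r • g) (z * t) * Mker k z t)
      = r * ∫ t in (0 : ℝ)..1, evX g (z * t) * Mker k z t := by
    rw [← intervalIntegral.integral_const_mul]
    refine intervalIntegral.integral_congr fun t _ => ?_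
    simp only [e]
    ring
  unfold val
  rw [e, e2]
  ring

theorem val_bound (k : Fin 4 → Y) (g : X) (z : ℝ) :
    |val k g z| ≤ (1 / 4 + 1 / (2 * Real.pi) * ((5 * (Real.pi / 2))
      * ∫ t in (0 : ℝ)..1, BB t)) * ‖k‖ * ‖g‖ := by
  have hpi := Real.pi_pos
  have h1 : |1 / 4 * evY (k 0) z 0 * evX g z| ≤ 1 / 4 * ‖k‖ * ‖g‖ := by
    rw [abs_mul, abs_mul, abs_of_pos (by norm_num : (0 : ℝ) < 1 / 4)]
    refine mul_le_mul (mul_le_mul_of_nonneg_left
      ((abs_evY_le _ _ _).trans (norm_le_pi_norm k 0)) (by norm_num)) (abs_evX_le _ _)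
      (abs_nonneg _) (by positivity)
  have h2 : |∫ t in (0 : ℝ)..1, evX g (z * t) * Mker k z t|
      ≤ ‖g‖ * (5 * ‖k‖ * (Real.pi / 2)) * ∫ t in (0 : ℝ)..1, BB t := by
    rw [← intervalIntegral.integral_const_mul, ← Real.norm_eq_abs]
    refine intervalIntegral.norm_integral_le_of_norm_le zero_le_one ?_ (BB_int.const_mul _)
    refine Filter.Eventually.of_forall fun t ht => ?_
    rw [Real.norm_eq_abs]
    exact out_bound k g z t ht.1.le ht.2
  have h3 : |1 / (2 * Real.pi) * ∫ t in (0 : ℝ)..1, evX g (z * t) * Mker k z t|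
      ≤ 1 / (2 * Real.pi) * (‖g‖ * (5 * ‖k‖ * (Real.pi / 2)) * ∫ t in (0 : ℝ)..1, BB t) := by
    rw [abs_mul, abs_of_pos (by positivity)]
    exact mul_le_mul_of_nonneg_left h2 (by positivity)
  unfold val
  refine (abs_add_le _ _).trans ((add_le_add h1 h3).trans (le_of_eq ?_))
  ring

/-- the value as an element of `X` -/
def valX (k : Fin 4 → Y) (g : X) : X :=
  ⟨fun z => val k g z, (val_cont k g).comp continuous_subtype_val⟩

theorem valX_apply (k : Fin 4 → Y) (g : X) (z : I1) : valX k g z = val k g z := rfl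

/-- the bilinear map -/
def Alin : (Fin 4 → Y) →ₗ[ℝ] X →ₗ[ℝ] X :=
  LinearMap.mk₂ ℝ valX
    (fun k k' g => by ext z; exact val_add_left k k' g z)
    (fun r k g => by ext z; exact val_smul_left r k g z)
    (fun k g g' => by ext z; exact val_add_right k g g' z)
    (fun r k g => by ext z; exact val_smul_right r k g z)

theorem BB_integral_nonneg : 0 ≤ ∫ t in (0 : ℝ)..1, BB t :=
  intervalIntegral.integral_nonneg zero_le_one fun _ ht => BB_nonneg ht.2

theorem Alin_bound (k : Fin 4 → Y) (g : X) :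
    ‖Alin k g‖ ≤ (1 / 4 + 1 / (2 * Real.pi) * ((5 * (Real.pi / 2))
      * ∫ t in (0 : ℝ)..1, BB t)) * ‖k‖ * ‖g‖ := by
  have hpi := Real.pi_pos
  have hB := BB_integral_nonneg
  refine (ContinuousMap.norm_le _ (by positivity)).2 fun z => ?_
  exact val_bound k g z

/-- UNI-A1 -/
theorem main : P_A1 := by
  refine ⟨LinearMap.mkContinuous₂ Alin _ Alin_bound, ?_⟩
  intro k g z h0 h1
  have hz : (Set.projIcc (0 : ℝ) 1 zero_le_one z : ℝ) = z := by
    rw [Set.projIcc_of_mem zero_le_one ⟨h0, h1⟩]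
  have e : evX (LinearMap.mkContinuous₂ Alin _ Alin_bound k g) z
      = val k g (Set.projIcc (0 : ℝ) 1 zero_le_one z : ℝ) := rfl
  rw [e, hz]
  rfl

end

end Pool.Agent.W107.UniA1
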